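import Mathlib
import Pool.Agent.Helper40.Nil.Stmts

set_option autoImplicit false

/-! Module GNS: the Gelfand-Naimark-Segal construction for groups. -/

namespace Pool.Agent.Helper40.Nil

open Filter Topology
open scoped ComplexConjugate InnerProductSpace

universe u

/-- positive definite functions are hermitian -/
theorem gns_herm {V : Type u} [Group V] {φ : V → ℂ} (h : φ ∈ KK V) (g : V) :
    φ g⁻¹ = conj (φ g) := by
  classical
  obtain ⟨hp, h1⟩ := h
  by_cases hg : g = 1
  · subst hg
    rw [inv_one, h1, map_one]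
  have key : ∀ l : ℂ, (l * φ g + conj l * φ g⁻¹).im = 0 := by
    intro l
    have h2 := (hp {1, g} (fun x => if x = 1 then 1 else l)).2
    rw [Finset.sum_pair (Ne.symm hg), Finset.sum_pair (Ne.symm hg),
      Finset.sum_pair (Ne.symm hg)] at h2
    simp only [if_true, if_neg hg, map_one, one_mul, inv_one, mul_one, inv_mul_cancel, h1] at h2
    have h3 : (conj l * l).im = 0 := by
      rw [mul_comm, Complex.mul_conj]
      exact Complex.ofReal_im _
    simp only [Complex.add_im, Complex.one_im] at h2 ⊢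
    rw [h3] at h2
    linarith
  have k1 := key 1
  have k2 := key Complex.I
  simp only [map_one, one_mul, Complex.add_im, Complex.mul_im, Complex.I_re, Complex.I_im,
    Complex.conj_I, Complex.neg_im, Complex.neg_re] at k1 k2
  apply Complex.ext
  · rw [Complex.conj_re]; linarith
  · rw [Complex.conj_im]; linarith

/-- the Hilbert space -/
theorem gns_space (V : Type u) [Group V] (φ : V → ℂ) (hφ : φ ∈ KK V) :
    ∃ (E : Type u) (_ : NormedAddCommGroup E) (_ : InnerProductSpace ℂ E) (_ : CompleteSpace E)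
      (k : V → E), (∀ x y, ⟪k x, k y⟫_ℂ = φ (x⁻¹ * y)) ∧
      DenseRange (Finsupp.linearCombination ℂ k) := by
  classical
  let K : Matrix V V (ℂ →L[ℂ] ℂ) := .of fun x y => conj (φ (y⁻¹ * x)) • ContinuousLinearMap.id ℂ ℂ
  have hK : ∀ x y w, K x y w = conj (φ (y⁻¹ * x)) * w := fun x y w => rfl
  have hH : K.IsHermitian := by
    ext x y
    refine ext_inner_right ℂ fun w => ?_
    rw [Matrix.conjTranspose_apply, ContinuousLinearMap.star_eq_adjoint,
      ContinuousLinearMap.adjoint_inner_left, hK, hK]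
    simp only [RCLike.inner_apply, map_one, Complex.conj_conj, mul_one]
    have := gns_herm hφ (x⁻¹ * y)
    rw [mul_inv_rev, inv_inv] at this
    rw [this, mul_comm]
  have hP : K.PosSemidef := by
    have ht : K.PosSemidef ↔ (K.IsHermitian ∧ ∀ vv : V →₀ ℂ,
        0 ≤ RCLike.re (vv.sum fun x w => vv.sum fun x' w' => ⟪K x' x w, w'⟫_ℂ)) :=
      RKHS.posSemidef_tfae.out 0 2
    refine ht.2 ⟨hH, fun vv => ?_⟩
    have h := (hφ.1 vv.support vv).1
    have e : (vv.sum fun x w => vv.sum fun x' w' => ⟪K x' x w, w'⟫_ℂ) =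
        ∑ x ∈ vv.support, ∑ y ∈ vv.support, conj (vv x) * vv y * φ (x⁻¹ * y) := by
      unfold Finsupp.sum
      refine Finset.sum_congr rfl fun x _ => Finset.sum_congr rfl fun y _ => ?_
      show ⟪K y x (vv x), vv y⟫_ℂ = _
      rw [hK]
      simp only [RCLike.inner_apply, map_mul, Complex.conj_conj]
      ring
    rw [e]
    exact h
  have : Fact K.PosSemidef := ⟨hP⟩
  refine ⟨RKHS.OfKernel K, inferInstance, inferInstance, inferInstance,
    fun x => RKHS.kerFun (RKHS.OfKernel K) x (1 : ℂ), ?_, ?_⟩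
  · intro x y
    rw [← RKHS.kernel_inner, RKHS.OfKernel.kernel_ofKernel, hK]
    simp only [RCLike.inner_apply, Complex.conj_conj, mul_one, one_mul]
  · have hd := RKHS.kerFun_dense (RKHS.OfKernel K)
    have h1 : Submodule.span ℂ {f | ∃ x v, RKHS.kerFun (RKHS.OfKernel K) x v = f} ≤
        LinearMap.range (Finsupp.linearCombination ℂ
          (fun x => RKHS.kerFun (RKHS.OfKernel K) x (1 : ℂ))) := by
      rw [Submodule.span_le]
      rintro f ⟨x, v, rfl⟩
      refine ⟨Finsupp.single x v, ?_⟩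
      rw [Finsupp.linearCombination_single, ← map_smul, smul_eq_mul, mul_one]
    have h2 : (LinearMap.range (Finsupp.linearCombination ℂ
          (fun x => RKHS.kerFun (RKHS.OfKernel K) x (1 : ℂ)))).topologicalClosure = ⊤ := by
      rw [eq_top_iff, ← hd]
      exact Submodule.topologicalClosure_mono h1
    intro f
    have h3 : f ∈ (LinearMap.range (Finsupp.linearCombination ℂ
          (fun x => RKHS.kerFun (RKHS.OfKernel K) x (1 : ℂ)))).topologicalClosure := by
      rw [h2]; trivial
    exact h3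

/-- left translation -/
noncomputable def gns_tr {V : Type u} [Group V] (g : V) : (V →₀ ℂ) ≃ₗ[ℂ] (V →₀ ℂ) :=
  Finsupp.domLCongr (Equiv.mulLeft g)

theorem gns_tr_lc {V : Type u} [Group V] {E : Type u} [NormedAddCommGroup E]
    [InnerProductSpace ℂ E] (k : V → E) (g : V) (c : V →₀ ℂ) :
    Finsupp.linearCombination ℂ k (gns_tr g c) =
      Finsupp.linearCombination ℂ (fun x => k (g * x)) c := by
  unfold gns_tr
  rw [Finsupp.domLCongr_apply]
  exact Finsupp.linearCombination_equivMapDomain ℂ (Equiv.mulLeft g) c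

theorem gns_inner {V : Type u} [Group V] {φ : V → ℂ} {E : Type u} [NormedAddCommGroup E]
    [InnerProductSpace ℂ E] {k : V → E} (hk : ∀ x y, ⟪k x, k y⟫_ℂ = φ (x⁻¹ * y)) (g : V)
    (c : V →₀ ℂ) : ‖Finsupp.linearCombination ℂ k (gns_tr g c)‖ =
      ‖Finsupp.linearCombination ℂ k c‖ := by
  have key : ∀ j : V → E, (∀ x y, ⟪j x, j y⟫_ℂ = φ (x⁻¹ * y)) →
      ⟪Finsupp.linearCombination ℂ j c, Finsupp.linearCombination ℂ j c⟫_ℂ =
        ∑ x ∈ c.support, ∑ y ∈ c.support, conj (c x) * (c y * φ (x⁻¹ * y)) := by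
    intro j hj
    rw [Finsupp.linearCombination_apply, Finsupp.sum, sum_inner]
    refine Finset.sum_congr rfl fun x _ => ?_
    rw [inner_sum]
    refine Finset.sum_congr rfl fun y _ => ?_
    rw [inner_smul_left, inner_smul_right, hj]
  rw [gns_tr_lc, ← sq_eq_sq₀ (norm_nonneg _) (norm_nonneg _)]
  have h1 := key k hk
  have h2 := key (fun x => k (g * x)) (fun x y => by
    rw [hk, mul_inv_rev, mul_assoc, inv_mul_cancel_left])
  rw [← h1] at h2
  rw [← inner_self_eq_norm_sq (𝕜 := ℂ), ← inner_self_eq_norm_sq (𝕜 := ℂ), h2]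

theorem st_GNS : ST_GNS.{u} := by
  intro V _ φ hφ
  classical
  obtain ⟨E, i1, i2, i3, k, hk, hd⟩ := gns_space V φ hφ
  obtain ⟨π, hπ⟩ : ∃ π : V → (E ≃ₗᵢ[ℂ] E), ∀ g c, π g (Finsupp.linearCombination ℂ k c) =
      Finsupp.linearCombination ℂ k (gns_tr g c) :=
    ⟨fun g => (gns_tr g).extendOfIsometry
      (Finsupp.linearCombination ℂ k) (Finsupp.linearCombination ℂ k) hd hd
      (gns_inner hk g), fun g c => LinearEquiv.extendOfIsometry_eq _ _ _ hd hd _ c⟩
  have hπk : ∀ g x, π g (k x) = k (g * x) := by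
    intro g x
    have h1 : k x = Finsupp.linearCombination ℂ k (Finsupp.single x 1) := by
      rw [Finsupp.linearCombination_single, one_smul]
    rw [h1, hπ, gns_tr_lc, Finsupp.linearCombination_single, one_smul]
  have hext : ∀ S T : E ≃ₗᵢ[ℂ] E, (∀ x, S (k x) = T (k x)) → S = T := by
    intro S T h
    ext v
    refine hd.induction_on (p := fun v => S v = T v) v
      (isClosed_eq S.continuous T.continuous) fun c => ?_
    rw [Finsupp.linearCombination_apply, Finsupp.sum, map_sum, map_sum]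
    refine Finset.sum_congr rfl fun x _ => ?_
    rw [map_smul, map_smul, h]
  refine ⟨E, i1, i2, i3, ⟨⟨π, ?_⟩, ?_⟩, k 1, ?_, ?_⟩
  · refine hext _ _ fun x => ?_
    rw [hπk, one_mul]
    rfl
  · intro a b
    refine hext _ _ fun x => ?_
    show π (a * b) (k x) = π a (π b (k x))
    rw [hπk, hπk, hπk, mul_assoc]
  · intro x
    show φ x = ⟪k 1, π x (k 1)⟫_ℂ
    rw [hπk, hk, inv_one, one_mul, mul_one]
  · intro v
    have h1 : (Set.range fun x => π x (k 1)) = Set.range k := by
      congr 1
      funext x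
      rw [hπk, mul_one]
    show v ∈ closure ((Submodule.span ℂ (Set.range fun x => π x (k 1)) : Submodule ℂ E) : Set E)
    rw [h1, ← Finsupp.range_linearCombination]
    exact hd v

end Pool.Agent.Helper40.Nil
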