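import Mathlib
import Pool.Agent.Helper40.Nil.Stmts

set_option autoImplicit false

/-! Module POLA: polynomial maps and homomorphisms. -/

namespace Pool.Agent.Helper40.Nil

universe u v

theorem pola_map {D : Type} [AddCommGroup D] {V : Type u} [Group V] {W : Type v} [Group W]
    (f : V →* W) (F : ℕ → Subgroup V) (G : ℕ → Subgroup W)
    (h : ∀ i, ∀ a ∈ F i, f a ∈ G i) :
    ∀ (l k : ℕ) (u : D → V), PolyN F l k u → PolyN G l k (fun x => f (u x)) := by
  intro l
  induction l with
  | zero => exact fun k u hu x => h k _ (hu x)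
  | succ l ih =>
    intro k u hu
    refine ⟨fun x => h k _ (hu.1 x), fun d => ?_⟩
    have e : dd d (fun x => f (u x)) = fun x => f (dd d u x) := by
      funext x
      simp only [dd, map_mul, map_inv]
    rw [e]
    exact ih (k + 1) _ (hu.2 d)

theorem pola_comap {D : Type} [AddCommGroup D] {V : Type u} [Group V] {W : Type v} [Group W]
    (f : W →* V) (F : ℕ → Subgroup V) :
    ∀ (l k : ℕ) (u : D → W), PolyN F l k (fun x => f (u x)) →
      PolyN (fun i => (F i).comap f) l k u := by
  intro l
  induction l with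
  | zero => exact fun k u hu x => hu x
  | succ l ih =>
    intro k u hu
    refine ⟨fun x => hu.1 x, fun d => ?_⟩
    have e : dd d (fun x => f (u x)) = fun x => f (dd d u x) := by
      funext x
      simp only [dd, map_mul, map_inv]
    have h2 := hu.2 d
    rw [e] at h2
    exact ih (k + 1) _ h2

theorem pola_comp {D D' : Type} [AddCommGroup D] [AddCommGroup D'] {V : Type u} [Group V]
    (f : D' →+ D) (c : D) (F : ℕ → Subgroup V) :
    ∀ (l k : ℕ) (u : D → V), PolyN F l k u → PolyN F l k (fun x => u (f x + c)) := by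
  intro l
  induction l with
  | zero => exact fun k u hu x => hu _
  | succ l ih =>
    intro k u hu
    refine ⟨fun x => hu.1 _, fun d => ?_⟩
    have e : dd d (fun x => u (f x + c)) = fun x => dd (f d) u (f x + c) := by
      funext x
      simp only [dd, map_add]
      rw [add_right_comm]
    rw [e]
    exact ih (k + 1) _ (hu.2 (f d))

theorem st_POLA : ST_POLA.{u, v} := by
  refine ⟨?_, ?_, ?_⟩
  · intro D _ V _ W _ f u hu
    obtain ⟨F, hF⟩ := hu
    refine ⟨⟨fun i => (F.F i).map f, fun i j hij => Subgroup.map_mono (F.anti hij), ?_, ?_⟩,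
      fun l => pola_map f F.F _ (fun i a ha => Subgroup.mem_map_of_mem f ha) l 0 u (hF l)⟩
    · rintro i j _ ⟨a, ha, rfl⟩ _ ⟨b, hb, rfl⟩
      rw [← map_inv, ← map_inv, ← map_mul, ← map_mul, ← map_mul]
      exact Subgroup.mem_map_of_mem f (F.comm i j a ha b hb)
    · obtain ⟨s, hs⟩ := F.len
      exact ⟨s, by rw [hs, Subgroup.map_bot]⟩
  · intro D _ V _ W _ f u hf hu
    obtain ⟨F, hF⟩ := hu
    refine ⟨⟨fun i => (F.F i).comap f, fun i j hij => Subgroup.comap_mono (F.anti hij), ?_, ?_⟩,
      fun l => pola_comap f F.F l 0 u (hF l)⟩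
    · intro i j a ha b hb
      rw [Subgroup.mem_comap] at ha hb ⊢
      rw [map_mul, map_mul, map_mul, map_inv, map_inv]
      exact F.comm i j _ ha _ hb
    · obtain ⟨s, hs⟩ := F.len
      refine ⟨s, ?_⟩
      rw [eq_bot_iff]
      intro a ha
      have ha' : f a ∈ F.F s := ha
      rw [hs, Subgroup.mem_bot] at ha'
      rw [Subgroup.mem_bot]
      exact hf (by rw [ha', map_one])
  · intro D D' _ _ V _ f c u hu
    obtain ⟨F, hF⟩ := hu
    exact ⟨F, fun l => pola_comp f c F.F l 0 u (hF l)⟩

end Pool.Agent.Helper40.Nil
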