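import Mathlib
import Pool.Agent.Helper40.Nil.Stmts

set_option autoImplicit false

/-! Module WN0: the trivial group. -/

namespace Pool.Agent.Helper40.Nil

universe u

theorem st_WN0 : ST_WN0.{u} := by
  intro V _ _ hc _ D _ _ Φ _ u _ _ _ φ hφ
  have hs : Subsingleton V := Group.nilpotencyClass_zero_iff_subsingleton.1 (Nat.le_zero.1 hc)
  refine Or.inr ⟨1, le_rfl, fun y _ => ?_⟩
  rw [Subsingleton.elim y 1]
  exact hφ.1.2

end Pool.Agent.Helper40.Nil
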